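import Pool.Agent.SchK.Defs

/-!
# Addition chains: binary digits, upper bounds
-/

set_option autoImplicit false

namespace Pool.Agent.SchK

/-! ### binary digits -/

theorem ones_zero : ones 0 = 0 := by simp [ones]

theorem ones_one : ones 1 = 1 := by simp [ones]

theorem ones_two_mul (n : ℕ) : ones (2 * n) = ones n := by
  rcases Nat.eq_zero_or_pos n with rfl | h
  · simp
  · unfold ones
    rw [Nat.digits_def' (by norm_num) (by omega : 0 < 2 * n)]
    simp

theorem ones_two_mul_add_one (n : ℕ) : ones (2 * n + 1) = ones n + 1 := by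
  unfold ones
  rw [Nat.digits_def' (by norm_num) (by omega : 0 < 2 * n + 1)]
  have h1 : (2 * n + 1) % 2 = 1 := by omega
  have h2 : (2 * n + 1) / 2 = n := by omega
  rw [h1, h2, List.sum_cons, add_comm]

theorem ones_succ_le (n : ℕ) : ones (n + 1) ≤ ones n + 1 := by
  induction n using Nat.strong_induction_on with
  | _ n ih =>
    rcases Nat.even_or_odd' n with ⟨m, rfl | rfl⟩
    · rw [ones_two_mul_add_one, ones_two_mul]
    · have h1 : 2 * m + 1 + 1 = 2 * (m + 1) := by ring
      rw [h1, ones_two_mul, ones_two_mul_add_one]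
      have := ih m (by omega)
      omega

theorem ones_add_le (m n : ℕ) : ones (m + n) ≤ ones m + ones n := by
  induction h : m + n using Nat.strong_induction_on generalizing m n with
  | _ k ih =>
    subst h
    rcases Nat.even_or_odd' m with ⟨a, rfl | rfl⟩ <;> rcases Nat.even_or_odd' n with ⟨b, rfl | rfl⟩
    · rcases Nat.eq_zero_or_pos (a + b) with h | h
      · have ha : a = 0 := by omega
        have hb : b = 0 := by omega
        subst ha hb
        simp [ones_zero]
      · have h1 : 2 * a + 2 * b = 2 * (a + b) := by ring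
        rw [h1, ones_two_mul, ones_two_mul, ones_two_mul]
        exact ih (a + b) (by omega) a b rfl
    · have h1 : 2 * a + (2 * b + 1) = 2 * (a + b) + 1 := by ring
      rw [h1, ones_two_mul_add_one, ones_two_mul, ones_two_mul_add_one]
      have := ih (a + b) (by omega) a b rfl
      omega
    · have h1 : 2 * a + 1 + 2 * b = 2 * (a + b) + 1 := by ring
      rw [h1, ones_two_mul_add_one, ones_two_mul, ones_two_mul_add_one]
      have := ih (a + b) (by omega) a b rfl
      omega
    · have h1 : 2 * a + 1 + (2 * b + 1) = 2 * (a + b + 1) := by ring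
      rw [h1, ones_two_mul, ones_two_mul_add_one, ones_two_mul_add_one]
      have h2 := ih (a + b) (by omega) a b rfl
      have h3 := ones_succ_le (a + b)
      omega

theorem ones_div_two_le (n : ℕ) : ones (n / 2) ≤ ones n := by
  rcases Nat.even_or_odd' n with ⟨a, rfl | rfl⟩
  · rw [Nat.mul_div_cancel_left a two_pos, ones_two_mul]
  · have h : (2 * a + 1) / 2 = a := by omega
    rw [h, ones_two_mul_add_one]
    omega

theorem ones_div_pow_le (n t : ℕ) : ones (n / 2 ^ t) ≤ ones n := by
  induction t with
  | zero => simp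
  | succ t ih =>
    rw [pow_succ, ← Nat.div_div_eq_div_mul]
    exact (ones_div_two_le _).trans ih

theorem ones_two_pow_sub_one (z : ℕ) : ones (2 ^ z - 1) = z := by
  induction z with
  | zero => simp [ones_zero]
  | succ z ih =>
    have h1 : 1 ≤ 2 ^ z := Nat.one_le_two_pow
    have h2 : 2 ^ (z + 1) - 1 = 2 * (2 ^ z - 1) + 1 := by
      rw [pow_succ]; omega
    rw [h2, ones_two_mul_add_one, ih]

/-- if adding a small number produces a carry out of the top digit, then the top digits are ones -/
theorem le_ones_of_carry {x y L z : ℕ} (hz : z ≤ L) (hx : x < 2 ^ L) (hy : y < 2 ^ (L - z))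
    (h : 2 ^ L ≤ x + y) : z ≤ ones x := by
  have h1 : x / 2 ^ (L - z) = 2 ^ z - 1 := by
    have h2 : 2 ^ L = 2 ^ z * 2 ^ (L - z) := by
      rw [← pow_add]; congr 1; omega
    have h3 : 1 ≤ 2 ^ z := Nat.one_le_two_pow
    have h4 : 0 < 2 ^ (L - z) := by positivity
    apply Nat.div_eq_of_lt_le
    · rw [Nat.sub_mul, one_mul]
      omega
    · rw [Nat.sub_add_cancel h3, ← h2]
      exact hx
  calc z = ones (2 ^ z - 1) := (ones_two_pow_sub_one z).symm
    _ = ones (x / 2 ^ (L - z)) := by rw [h1]
    _ ≤ ones x := ones_div_pow_le _ _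

/-! ### construction of chains -/

theorem IsChain.extend {n r : ℕ} {a : ℕ → ℕ} (h : IsChain n r a) {i j : ℕ} (hi : i ≤ r)
    (hj : j ≤ r) (hlt : n < a i + a j) :
    IsChain (a i + a j) (r + 1) (Function.update a (r + 1) (a i + a j)) := by
  obtain ⟨h0, hr, hinc, hadd⟩ := h
  have key : ∀ m, m ≤ r → Function.update a (r + 1) (a i + a j) m = a m := fun m hm =>
    Function.update_of_ne (by omega) _ _
  refine ⟨?_, ?_, ?_, ?_⟩
  · rw [key 0 (Nat.zero_le _), h0]
  · simp
  · intro p q hpq hq
    rcases Nat.lt_or_ge q (r + 1) with hq' | hq'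
    · rw [key p (by omega), key q (by omega)]
      exact hinc p q hpq (by omega)
    · have : q = r + 1 := by omega
      subst this
      rw [key p (by omega), Function.update_self]
      rcases Nat.lt_or_ge p r with hp | hp
      · exact (hinc p r hp le_rfl).trans (hr ▸ hlt)
      · have : p = r := by omega
        subst this
        exact hr ▸ hlt
  · intro k hk1 hk
    rcases Nat.lt_or_ge k (r + 1) with hk' | hk'
    · obtain ⟨p, q, hp, hq, hpq⟩ := hadd k hk1 (by omega)
      exact ⟨p, q, hp, hq, by rw [key k (by omega), key p (by omega), key q (by omega), hpq]⟩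
    · have : k = r + 1 := by omega
      subst this
      exact ⟨i, j, by omega, by omega, by rw [key i hi, key j hj, Function.update_self]⟩

theorem isChain_one : IsChain 1 0 (fun _ => 1) :=
  ⟨rfl, rfl, fun i j hij hj => by omega, fun k hk1 hk => by omega⟩

theorem IsChain.pos {n r : ℕ} {a : ℕ → ℕ} (h : IsChain n r a) {i : ℕ} (hi : i ≤ r) : 1 ≤ a i := by
  rcases Nat.eq_zero_or_pos i with rfl | h1
  · exact h.1.ge
  · have := h.2.2.1 0 i h1 hi
    omega

/-- `t` doublings -/
theorem IsChain.doublings {m r : ℕ} {a : ℕ → ℕ} (h : IsChain m r a) (t : ℕ) :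
    ∃ b, IsChain (2 ^ t * m) (r + t) b ∧ b r = m := by
  induction t with
  | zero => exact ⟨a, by simpa using h, h.2.1⟩
  | succ t ih =>
    obtain ⟨b, hb, hbr⟩ := ih
    have h1 : 1 ≤ b (r + t) := hb.pos le_rfl
    have h2 := hb.extend (i := r + t) (j := r + t) le_rfl le_rfl (by rw [hb.2.1] at h1 ⊢; omega)
    refine ⟨Function.update b (r + t + 1) (b (r + t) + b (r + t)), ?_, ?_⟩
    · have h3 : 2 ^ (t + 1) * m = b (r + t) + b (r + t) := by rw [hb.2.1]; ring
      rw [h3]
      exact h2
    · rw [Function.update_of_ne (by omega), hbr]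

theorem exists_double {n r : ℕ} (h : ∃ a, IsChain n r a) : ∃ a, IsChain (2 * n) (r + 1) a := by
  obtain ⟨a, ha⟩ := h
  obtain ⟨b, hb, -⟩ := ha.doublings 1
  exact ⟨b, by simpa using hb⟩

theorem exists_succ {n r : ℕ} (h : ∃ a, IsChain n r a) : ∃ a, IsChain (n + 1) (r + 1) a := by
  obtain ⟨a, ha⟩ := h
  have h1 := ha.extend (i := r) (j := 0) le_rfl (Nat.zero_le _) (by rw [ha.1, ha.2.1]; omega)
  rw [ha.1, ha.2.1] at h1
  exact ⟨_, h1⟩

theorem exists_pow_mul_add {n r : ℕ} (h : ∃ a, IsChain n r a) (t : ℕ) :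
    ∃ a, IsChain (2 ^ t * n + n) (r + t + 1) a := by
  obtain ⟨a, ha⟩ := h
  obtain ⟨b, hb, hbr⟩ := ha.doublings t
  have h0 : 1 ≤ n := by have := ha.pos (le_refl r); rwa [ha.2.1] at this
  have h1 := hb.extend (i := r + t) (j := r) le_rfl (by omega) (by rw [hb.2.1, hbr]; omega)
  rw [hb.2.1, hbr] at h1
  exact ⟨_, h1⟩

/-- the binary chains for `n` and for `2 ^ n - 1` -/
theorem exists_binary (n : ℕ) (hn : 1 ≤ n) :
    (∃ a, IsChain n (Nat.log 2 n + ones n - 1) a) ∧
      ∃ a, IsChain (2 ^ n - 1) (n - 1 + (Nat.log 2 n + ones n - 1)) a := by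
  have hpos : ∀ m, 1 ≤ m → 1 ≤ ones m := by
    intro m
    induction m using Nat.strong_induction_on with
    | _ m ih =>
      intro hm
      rcases Nat.even_or_odd' m with ⟨p, rfl | rfl⟩
      · rw [ones_two_mul]
        exact ih p (by omega) (by omega)
      · rw [ones_two_mul_add_one]; omega
  have hlog : ∀ m, 1 ≤ m → Nat.log 2 (2 * m) = Nat.log 2 m + 1 := by
    intro m hm
    rw [mul_comm, Nat.log_mul_base (by norm_num) (by omega)]
  have hlog' : ∀ m, 1 ≤ m → Nat.log 2 (2 * m + 1) = Nat.log 2 m + 1 := by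
    intro m hm
    rw [Nat.log_of_one_lt_of_le (by norm_num) (by omega)]
    congr 2
    omega
  induction n using Nat.strong_induction_on with
  | _ n ih =>
    rcases Nat.even_or_odd' n with ⟨m, rfl | rfl⟩
    · have hm : 1 ≤ m := by omega
      obtain ⟨h1, h2⟩ := ih m (by omega) hm
      have ho := hpos m hm
      rw [ones_two_mul, hlog m hm]
      refine ⟨?_, ?_⟩
      · have := exists_double h1
        convert this using 3
        omega
      · have := exists_pow_mul_add h2 m
        have h3 : 1 ≤ 2 ^ m := Nat.one_le_two_pow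
        have h4 : 2 ^ m * (2 ^ m - 1) + (2 ^ m - 1) = 2 ^ (2 * m) - 1 := by
          have h5 : 2 ^ (2 * m) = 2 ^ m * 2 ^ m := by rw [two_mul, pow_add]
          rw [h5, Nat.mul_sub, mul_one]
          have h6 : 2 ^ m ≤ 2 ^ m * 2 ^ m := Nat.le_mul_of_pos_left _ (by omega)
          omega
        rw [h4] at this
        convert this using 3
        omega
    · rcases Nat.eq_zero_or_pos m with rfl | hm
      · simp only [mul_zero, zero_add, ones_one, Nat.log_one_right]
        exact ⟨⟨_, isChain_one⟩, ⟨_, isChain_one⟩⟩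
      · obtain ⟨h1, h2⟩ := ih (2 * m) (by omega) (by omega)
        have ho := hpos m hm
        rw [ones_two_mul_add_one, hlog' m hm]
        rw [ones_two_mul, hlog m hm] at h1 h2
        refine ⟨?_, ?_⟩
        · have := exists_succ h1
          convert this using 3
          omega
        · have := exists_succ (exists_double h2)
          have h3 : 2 * (2 ^ (2 * m) - 1) + 1 = 2 ^ (2 * m + 1) - 1 := by
            have : 1 ≤ 2 ^ (2 * m) := Nat.one_le_two_pow
            rw [pow_succ]; omega
          rw [h3] at this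
          convert this using 3
          omega

end Pool.Agent.SchK
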