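import Pool.Agent.SchK.Basic

/-!
# Counting the integers with short addition chains
-/

set_option autoImplicit false

namespace Pool.Agent.SchK

open Finset

/-! ### the number of nondoublings -/

/-- the number of nondoublings among the first `m` steps -/
def nd (a : ℕ → ℕ) (m : ℕ) : ℕ := ((range m).filter (fun i => a (i + 1) ≠ 2 * a i)).card

theorem nd_zero (a : ℕ → ℕ) : nd a 0 = 0 := by simp [nd]

theorem nd_succ_of_eq {a : ℕ → ℕ} {m : ℕ} (h : a (m + 1) = 2 * a m) :
    nd a (m + 1) = nd a m := by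
  unfold nd
  rw [range_add_one, filter_insert, if_neg (by simpa using h)]

theorem nd_succ_of_ne {a : ℕ → ℕ} {m : ℕ} (h : a (m + 1) ≠ 2 * a m) :
    nd a (m + 1) = nd a m + 1 := by
  unfold nd
  rw [range_add_one, filter_insert, if_pos h, card_insert_of_notMem (by simp)]

theorem nd_mono {a : ℕ → ℕ} {m r : ℕ} (h : m ≤ r) : nd a m ≤ nd a r := by
  unfold nd
  exact card_le_card (filter_subset_filter _ (range_mono h))

theorem nd_succ_le (a : ℕ → ℕ) (m : ℕ) : nd a (m + 1) ≤ nd a m + 1 := by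
  by_cases h : a (m + 1) = 2 * a m
  · rw [nd_succ_of_eq h]; omega
  · rw [nd_succ_of_ne h]

theorem IsChain.mono {n r : ℕ} {a : ℕ → ℕ} (h : IsChain n r a) {i j : ℕ} (hij : i ≤ j)
    (hj : j ≤ r) : a i ≤ a j := by
  rcases hij.eq_or_lt with rfl | h1
  · exact le_rfl
  · exact (h.2.2.1 i j h1 hj).le

theorem IsChain.step {n r : ℕ} {a : ℕ → ℕ} (h : IsChain n r a) {m : ℕ} (hm : m + 1 ≤ r) :
    ∃ i j, i ≤ m ∧ j ≤ i ∧ a (m + 1) = a i + a j := by
  obtain ⟨i, j, hi, hj, hij⟩ := h.2.2.2 (m + 1) (by omega) hm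
  rcases le_total i j with hle | hle
  · exact ⟨j, i, by omega, hle, by omega⟩
  · exact ⟨i, j, by omega, hle, hij⟩

/-- `a m ≤ 2 ^ m (5/6) ^ f` where `f` is the number of nondoublings -/
theorem IsChain.growth {n r : ℕ} {a : ℕ → ℕ} (h : IsChain n r a) (m : ℕ) (hm : m ≤ r) :
    (a m : ℚ) ≤ 2 ^ m * (5 / 6) ^ nd a m := by
  induction m using Nat.strong_induction_on with
  | _ m ih =>
    rcases m with _ | m
    · simp [nd_zero, h.1]
    · by_cases hd : a (m + 1) = 2 * a m
      · rw [nd_succ_of_eq hd, hd]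
        push_cast
        have := ih m (by omega) (by omega)
        rw [pow_succ]
        linarith
      · rw [nd_succ_of_ne hd]
        obtain ⟨i, j, hi, hj, hij⟩ := h.step hm
        have hjm : j < m := by
          by_contra hc
          have h1 : j = m := by omega
          have h2 : i = m := by omega
          rw [h1, h2] at hij
          omega
        obtain ⟨p, rfl⟩ : ∃ p, m = p + 1 := ⟨m - 1, by omega⟩
        have h1 : a i ≤ a (p + 1) := h.mono hi (by omega)
        have h2 : a j ≤ a p := h.mono (by omega) (by omega)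
        have h3 := ih (p + 1) (by omega) (by omega)
        have h4 := ih p (by omega) (by omega)
        have h5 := nd_succ_le a p
        have h6 : ((5 : ℚ) / 6) ^ (nd a p + 1) ≤ (5 / 6) ^ nd a (p + 1) :=
          pow_le_pow_of_le_one (by norm_num) (by norm_num) h5
        rw [pow_succ] at h6
        have h7 : (a (p + 1 + 1) : ℚ) ≤ a (p + 1) + a p := by
          rw [hij]; push_cast
          have h1' : (a i : ℚ) ≤ a (p + 1) := by exact_mod_cast h1
          have h2' : (a j : ℚ) ≤ a p := by exact_mod_cast h2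
          linarith
        have h8 : (0 : ℚ) < 2 ^ p := by positivity
        have h9 : (0 : ℚ) < (5 / 6) ^ nd a (p + 1) := by positivity
        have h10 : (2 : ℚ) ^ p * (5 / 6) ^ nd a p ≤ 2 ^ p * (6 / 5 * (5 / 6) ^ nd a (p + 1)) := by
          apply mul_le_mul_of_nonneg_left _ h8.le
          linarith
        have h11 : (0 : ℚ) < 2 ^ p * (5 / 6) ^ nd a (p + 1) := by positivity
        have h12 : (2 : ℚ) ^ (p + 1) * (5 / 6) ^ nd a (p + 1)
            = 2 * (2 ^ p * (5 / 6) ^ nd a (p + 1)) := by ring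
        have h13 : (2 : ℚ) ^ (p + 1 + 1) * (5 / 6) ^ (nd a (p + 1) + 1)
            = 10 / 3 * (2 ^ p * (5 / 6) ^ nd a (p + 1)) := by ring
        rw [h13]
        rw [h12] at h3
        have h14 : (2 : ℚ) ^ p * (6 / 5 * (5 / 6) ^ nd a (p + 1))
            = 6 / 5 * (2 ^ p * (5 / 6) ^ nd a (p + 1)) := by ring
        linarith

theorem IsChain.le_two_pow {n r : ℕ} {a : ℕ → ℕ} (h : IsChain n r a) {m : ℕ} (hm : m ≤ r) :
    a m ≤ 2 ^ m := by
  have h1 := h.growth m hm
  have h2 : ((5 : ℚ) / 6) ^ nd a m ≤ 1 := pow_le_one₀ (by norm_num) (by norm_num)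
  have h3 : (a m : ℚ) ≤ ((2 ^ m : ℕ) : ℚ) := by
    push_cast
    have h4 : (0 : ℚ) < 2 ^ m := by positivity
    nlinarith
  exact_mod_cast h3

theorem IsChain.log_le {n r : ℕ} {a : ℕ → ℕ} (h : IsChain n r a) {m : ℕ} (hm : m ≤ r) :
    Nat.log 2 (a m) ≤ m := by
  have h1 := h.le_two_pow hm
  have h2 : 2 ^ Nat.log 2 (a m) ≤ a m := Nat.pow_log_le_self 2 (by have := h.pos hm; omega)
  exact (Nat.pow_le_pow_iff_right (by norm_num)).1 (h2.trans h1)

theorem IsChain.nd_le {n r : ℕ} {a : ℕ → ℕ} (h : IsChain n r a) {m : ℕ} (hm : m ≤ r) :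
    nd a m ≤ 4 * (m - Nat.log 2 (a m)) := by
  have h0 := h.log_le hm
  have h1 := h.growth m hm
  have h2 : 2 ^ Nat.log 2 (a m) ≤ a m := Nat.pow_log_le_self 2 (by have := h.pos hm; omega)
  have h3 : ((2 : ℚ)) ^ Nat.log 2 (a m) ≤ a m := by exact_mod_cast h2
  obtain ⟨s, hs⟩ : ∃ s, m = Nat.log 2 (a m) + s := ⟨m - Nat.log 2 (a m), by omega⟩
  have hs' : m - Nat.log 2 (a m) = s := by omega
  rw [hs']
  by_contra hc
  have h4 : (2 : ℚ) ^ m = 2 ^ Nat.log 2 (a m) * 2 ^ s := by rw [← pow_add, ← hs]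
  have h5 : (0 : ℚ) < 2 ^ Nat.log 2 (a m) := by positivity
  have h6 : (1 : ℚ) ≤ 2 ^ s * (5 / 6) ^ nd a m := by
    have h7 : (2 : ℚ) ^ Nat.log 2 (a m) * 1 ≤ 2 ^ Nat.log 2 (a m) * (2 ^ s * (5 / 6) ^ nd a m) := by
      rw [← mul_assoc, ← h4, mul_one]
      exact h3.trans h1
    exact le_of_mul_le_mul_left h7 h5
  have h8 : ((5 : ℚ) / 6) ^ nd a m ≤ (5 / 6) ^ (4 * s + 1) :=
    pow_le_pow_of_le_one (by norm_num) (by norm_num) (by omega)
  have h9 : (2 : ℚ) ^ s * (5 / 6) ^ (4 * s + 1) = (2 * (5 / 6) ^ 4) ^ s * (5 / 6) := by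
    rw [mul_pow, pow_succ, ← pow_mul]; ring
  have h10 : ((2 : ℚ) * (5 / 6) ^ 4) ^ s ≤ 1 := pow_le_one₀ (by norm_num) (by norm_num)
  have h11 : (0 : ℚ) < 2 ^ s := by positivity
  nlinarith [mul_le_mul_of_nonneg_left h8 h11.le]

theorem IsChain.ones_le {n r : ℕ} {a : ℕ → ℕ} (h : IsChain n r a) (m : ℕ) (hm : m ≤ r) :
    ∀ i ≤ m, ones (a i) ≤ 2 ^ nd a m := by
  induction m with
  | zero =>
    intro i hi
    obtain rfl : i = 0 := by omega
    simp [h.1, ones_one, nd_zero]
  | succ m ih =>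
    intro i hi
    have ih := ih (by omega)
    rcases Nat.lt_or_ge i (m + 1) with h1 | h1
    · exact (ih i (by omega)).trans (Nat.pow_le_pow_right two_pos (nd_mono (by omega)))
    · obtain rfl : i = m + 1 := by omega
      by_cases hd : a (m + 1) = 2 * a m
      · rw [nd_succ_of_eq hd, hd, ones_two_mul]
        exact ih m le_rfl
      · rw [nd_succ_of_ne hd]
        obtain ⟨i, j, hi, hj, hij⟩ := h.step hm
        rw [hij, pow_succ]
        have h2 := ones_add_le (a i) (a j)
        have h3 := ih i hi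
        have h4 := ih j (by omega)
        omega

/-! ### mantissas -/

/-- the mantissa -/
def mant (x : ℕ) : ℚ := (x : ℚ) / 2 ^ Nat.log 2 x

/-- normalisation -/
def nrm (y : ℚ) : ℚ := if y < 2 then y else y / 2

theorem mant_one : mant 1 = 1 := by simp [mant]

theorem mant_two_mul {x : ℕ} (hx : 1 ≤ x) : mant (2 * x) = mant x := by
  unfold mant
  rw [mul_comm 2 x, Nat.log_mul_base (by norm_num) (by omega)]
  push_cast
  rw [pow_succ]
  field_simp

theorem mant_add {x y : ℕ} (hy : 1 ≤ y) (hyx : y ≤ x) :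
    mant (x + y) = nrm (mant x + mant y / 2 ^ (Nat.log 2 x - Nat.log 2 y)) := by
  have hl : Nat.log 2 y ≤ Nat.log 2 x := Nat.log_mono_right hyx
  have h1 : mant x + mant y / 2 ^ (Nat.log 2 x - Nat.log 2 y)
      = ((x + y : ℕ) : ℚ) / 2 ^ Nat.log 2 x := by
    unfold mant
    rw [div_div, ← pow_add, Nat.add_sub_cancel' hl]
    push_cast
    ring
  rw [h1]
  have h2 : 2 ^ Nat.log 2 x ≤ x := Nat.pow_log_le_self 2 (by omega)
  have h3 : x < 2 ^ (Nat.log 2 x + 1) := Nat.lt_pow_succ_log_self (by norm_num) x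
  have h2pos : (0 : ℚ) < 2 ^ Nat.log 2 x := by positivity
  unfold nrm
  split_ifs with h
  · have h4 : x + y < 2 ^ (Nat.log 2 x + 1) := by
      rw [div_lt_iff₀ h2pos] at h
      have : ((x + y : ℕ) : ℚ) < ((2 ^ (Nat.log 2 x + 1) : ℕ) : ℚ) := by
        push_cast at h ⊢
        rw [pow_succ]
        linarith
      exact_mod_cast this
    have h5 : Nat.log 2 (x + y) = Nat.log 2 x :=
      Nat.log_eq_of_pow_le_of_lt_pow (by omega) h4
    unfold mant
    rw [h5]
  · have h4 : 2 ^ (Nat.log 2 x + 1) ≤ x + y := by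
      rw [not_lt, le_div_iff₀ h2pos] at h
      have : ((2 ^ (Nat.log 2 x + 1) : ℕ) : ℚ) ≤ ((x + y : ℕ) : ℚ) := by
        push_cast at h ⊢
        rw [pow_succ]
        linarith
      exact_mod_cast this
    have h5 : Nat.log 2 (x + y) = Nat.log 2 x + 1 :=
      Nat.log_eq_of_pow_le_of_lt_pow h4 (by rw [pow_succ]; omega)
    unfold mant
    rw [h5, pow_succ, div_div]

/-! ### the sets of mantissas -/

/-- one step: add the sum of two members, the second shifted by less than `Z` digits -/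
def stp (Z : ℕ) (S : Finset ℚ) : Finset (Finset ℚ) :=
  (range Z ×ˢ (S ×ˢ S)).image (fun p => insert (nrm (p.2.1 + p.2.2 / 2 ^ p.1)) S)

theorem card_stp_le (Z : ℕ) (S : Finset ℚ) : (stp Z S).card ≤ Z * (S.card * S.card) := by
  unfold stp
  refine card_image_le.trans ?_
  rw [card_product, card_product, card_range]

theorem mem_stp {Z : ℕ} {S : Finset ℚ} {u v : ℚ} {z : ℕ} (hz : z < Z) (hu : u ∈ S)
    (hv : v ∈ S) : insert (nrm (u + v / 2 ^ z)) S ∈ stp Z S :=
  mem_image.2 ⟨(z, u, v), by simp [hz, hu, hv], rfl⟩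

theorem card_of_mem_stp {Z : ℕ} {S S' : Finset ℚ} (h : S' ∈ stp Z S) :
    S'.card ≤ S.card + 1 := by
  obtain ⟨p, -, rfl⟩ := mem_image.1 h
  exact card_insert_le _ _

/-- the possible sets of mantissas after `f` nondoublings, `s` of them with shifts up to `N` -/
def TT (B N : ℕ) : ℕ → ℕ → Finset (Finset ℚ)
  | 0, _ => {{1}}
  | f + 1, 0 => (TT B N f 0).biUnion (stp B)
  | f + 1, s + 1 => (TT B N f (s + 1)).biUnion (stp B) ∪ (TT B N f s).biUnion (stp N)

theorem mem_TT_big {B N f s : ℕ} {S S' : Finset ℚ} (h : S ∈ TT B N f s) (h' : S' ∈ stp B S) :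
    S' ∈ TT B N (f + 1) s := by
  rcases s with _ | s
  · exact mem_biUnion.2 ⟨S, h, h'⟩
  · exact mem_union_left _ (mem_biUnion.2 ⟨S, h, h'⟩)

theorem mem_TT_small {B N f s : ℕ} {S S' : Finset ℚ} (h : S ∈ TT B N f s) (h' : S' ∈ stp N S) :
    S' ∈ TT B N (f + 1) (s + 1) :=
  mem_union_right _ (mem_biUnion.2 ⟨S, h, h'⟩)

theorem card_of_mem_TT {B N : ℕ} (f : ℕ) : ∀ s, ∀ S ∈ TT B N f s, S.card ≤ f + 1 := by
  induction f with
  | zero =>
    intro s S hS
    rw [show TT B N 0 s = {{1}} by cases s <;> rfl, mem_singleton] at hS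
    simp [hS]
  | succ f ih =>
    intro s S hS
    rcases s with _ | s
    · obtain ⟨T, hT, hST⟩ := mem_biUnion.1 (show S ∈ (TT B N f 0).biUnion (stp B) from hS)
      exact (card_of_mem_stp hST).trans (by have := ih 0 T hT; omega)
    · rcases mem_union.1 (show S ∈ (TT B N f (s + 1)).biUnion (stp B) ∪
          (TT B N f s).biUnion (stp N) from hS) with h | h
      · obtain ⟨T, hT, hST⟩ := mem_biUnion.1 h
        exact (card_of_mem_stp hST).trans (by have := ih _ T hT; omega)
      · obtain ⟨T, hT, hST⟩ := mem_biUnion.1 h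
        exact (card_of_mem_stp hST).trans (by have := ih _ T hT; omega)

theorem card_biUnion_stp_le {B N f s F Z : ℕ} (hf : f ≤ F) :
    ((TT B N f s).biUnion (stp Z)).card ≤ (TT B N f s).card * (Z * (F + 1) ^ 2) := by
  refine card_biUnion_le_card_mul _ _ _ fun S hS => (card_stp_le Z S).trans ?_
  have h1 : S.card ≤ F + 1 := (card_of_mem_TT f s S hS).trans (by omega)
  have h2 : S.card * S.card ≤ (F + 1) ^ 2 := by rw [sq]; exact Nat.mul_le_mul h1 h1
  exact Nat.mul_le_mul_left Z h2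

theorem card_TT_le {B N F : ℕ} (hB : 1 ≤ B) (hN : 1 ≤ N) (f : ℕ) :
    ∀ s, f ≤ F → (TT B N f s).card ≤ (2 * (B * (F + 1) ^ 2)) ^ f * N ^ s := by
  induction f with
  | zero =>
    intro s _
    rw [show TT B N 0 s = {{1}} by cases s <;> rfl]
    simp only [card_singleton, pow_zero, one_mul]
    exact Nat.one_le_pow _ _ hN
  | succ f ih =>
    intro s hf
    rcases s with _ | s
    · have h1 : (TT B N (f + 1) 0).card ≤ (TT B N f 0).card * (B * (F + 1) ^ 2) :=
        card_biUnion_stp_le (by omega)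
      have h2 := ih 0 (by omega)
      calc (TT B N (f + 1) 0).card ≤ (TT B N f 0).card * (B * (F + 1) ^ 2) := h1
        _ ≤ ((2 * (B * (F + 1) ^ 2)) ^ f * N ^ 0) * (2 * (B * (F + 1) ^ 2)) :=
            Nat.mul_le_mul h2 (by omega)
        _ = (2 * (B * (F + 1) ^ 2)) ^ (f + 1) * N ^ 0 := by ring
    · have h1 : (TT B N (f + 1) (s + 1)).card ≤
          (TT B N f (s + 1)).card * (B * (F + 1) ^ 2) + (TT B N f s).card * (N * (F + 1) ^ 2) := by
        refine (card_union_le _ _).trans (Nat.add_le_add ?_ ?_)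
        · exact card_biUnion_stp_le (by omega)
        · exact card_biUnion_stp_le (by omega)
      have h2 := ih (s + 1) (by omega)
      have h3 := ih s (by omega)
      calc (TT B N (f + 1) (s + 1)).card
          ≤ (TT B N f (s + 1)).card * (B * (F + 1) ^ 2)
            + (TT B N f s).card * (N * (F + 1) ^ 2) := h1
        _ ≤ ((2 * (B * (F + 1) ^ 2)) ^ f * N ^ (s + 1)) * (B * (F + 1) ^ 2)
            + ((2 * (B * (F + 1) ^ 2)) ^ f * N ^ s) * (N * (F + 1) ^ 2) :=
            Nat.add_le_add (Nat.mul_le_mul_right _ h2) (Nat.mul_le_mul_right _ h3)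
        _ = (2 * (B * (F + 1) ^ 2)) ^ f * N ^ (s + 1) * ((B + 1) * (F + 1) ^ 2) := by ring
        _ ≤ (2 * (B * (F + 1) ^ 2)) ^ f * N ^ (s + 1) * (2 * (B * (F + 1) ^ 2)) := by
            apply Nat.mul_le_mul_left
            rw [← mul_assoc]
            exact Nat.mul_le_mul_right _ (by omega)
        _ = (2 * (B * (F + 1) ^ 2)) ^ (f + 1) * N ^ (s + 1) := by ring

/-! ### the mantissas of a chain -/

theorem IsChain.exists_mem_TT {n r N B : ℕ} {a : ℕ → ℕ} (h : IsChain n r a) (hn : n < 2 ^ N)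
    (hB : 2 ^ nd a r < B) (m : ℕ) (hm : m ≤ r) :
    ∃ S ∈ TT B N (nd a m) (m - Nat.log 2 (a m)), ∀ i ≤ m, mant (a i) ∈ S := by
  induction m with
  | zero =>
    refine ⟨{1}, ?_, ?_⟩
    · rw [nd_zero]
      rw [show TT B N 0 (0 - Nat.log 2 (a 0)) = {{1}} by cases (0 - Nat.log 2 (a 0)) <;> rfl]
      exact mem_singleton_self _
    · intro i hi
      obtain rfl : i = 0 := by omega
      rw [h.1, mant_one]
      exact mem_singleton_self _
  | succ m ih =>
    obtain ⟨S, hS, hmem⟩ := ih (by omega)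
    have hL : Nat.log 2 (a m) ≤ m := h.log_le (by omega)
    by_cases hd : a (m + 1) = 2 * a m
    · refine ⟨S, ?_, ?_⟩
      · rw [nd_succ_of_eq hd, hd, mul_comm 2 (a m),
          Nat.log_mul_base (by norm_num) (by have := h.pos (show m ≤ r by omega); omega)]
        convert hS using 2
        omega
      · intro i hi
        rcases Nat.lt_or_ge i (m + 1) with h1 | h1
        · exact hmem i (by omega)
        · obtain rfl : i = m + 1 := by omega
          rw [hd, mant_two_mul (h.pos (by omega))]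
          exact hmem m le_rfl
    · obtain ⟨i, j, hi, hj, hij⟩ := h.step hm
      have hi1 : 1 ≤ a i := h.pos (by omega)
      have hj1 : 1 ≤ a j := h.pos (by omega)
      have hji : a j ≤ a i := h.mono hj (by omega)
      have him : a i ≤ a m := h.mono hi (by omega)
      have hm1 : 1 ≤ a m := h.pos (by omega)
      have hlt : a m < a (m + 1) := h.2.2.1 m (m + 1) (by omega) hm
      have hup : a m < 2 ^ (Nat.log 2 (a m) + 1) := Nat.lt_pow_succ_log_self (by norm_num) _
      have hlo : 2 ^ Nat.log 2 (a m) ≤ a m := Nat.pow_log_le_self 2 (by omega)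
      have hmant : mant (a (m + 1)) = nrm (mant (a i) + mant (a j) /
          2 ^ (Nat.log 2 (a i) - Nat.log 2 (a j))) := by rw [hij, mant_add hj1 hji]
      have hins : ∀ k ≤ m + 1, mant (a k) ∈ insert (nrm (mant (a i) + mant (a j) /
          2 ^ (Nat.log 2 (a i) - Nat.log 2 (a j)))) S := by
        intro k hk
        rcases Nat.lt_or_ge k (m + 1) with h1 | h1
        · exact mem_insert_of_mem (hmem k (by omega))
        · obtain rfl : k = m + 1 := by omega
          rw [hmant]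
          exact mem_insert_self _ _
      refine ⟨_, ?_, hins⟩
      rw [nd_succ_of_ne hd]
      rcases Nat.lt_or_ge (a (m + 1)) (2 ^ (Nat.log 2 (a m) + 1)) with hsm | hbig
      · -- small step
        have h1 : Nat.log 2 (a (m + 1)) = Nat.log 2 (a m) :=
          Nat.log_eq_of_pow_le_of_lt_pow (by omega) hsm
        rw [h1, show m + 1 - Nat.log 2 (a m) = (m - Nat.log 2 (a m)) + 1 by omega]
        refine mem_TT_small hS (mem_stp ?_ (hmem i hi) (hmem j (by omega)))
        have h2 : Nat.log 2 (a i) < N := by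
          apply Nat.log_lt_of_lt_pow (by omega)
          have h3 : a i ≤ a r := h.mono (by omega) le_rfl
          rw [h.2.1] at h3
          omega
        omega
      · -- big step
        have h1 : Nat.log 2 (a (m + 1)) = Nat.log 2 (a m) + 1 :=
          Nat.log_eq_of_pow_le_of_lt_pow hbig (by rw [pow_succ]; omega)
        rw [h1, show m + 1 - (Nat.log 2 (a m) + 1) = m - Nat.log 2 (a m) by omega]
        refine mem_TT_big hS (mem_stp ?_ (hmem i hi) (hmem j (by omega)))
        have h2 : Nat.log 2 (a i) = Nat.log 2 (a m) := by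
          apply Nat.log_eq_of_pow_le_of_lt_pow _ (by omega)
          rw [pow_succ] at hbig
          omega
        have h3 : Nat.log 2 (a j) ≤ Nat.log 2 (a i) := Nat.log_mono_right hji
        have h4 : a j < 2 ^ (Nat.log 2 (a m) + 1 - (Nat.log 2 (a i) - Nat.log 2 (a j))) := by
          rw [show Nat.log 2 (a m) + 1 - (Nat.log 2 (a i) - Nat.log 2 (a j))
            = Nat.log 2 (a j) + 1 by omega]
          exact Nat.lt_pow_succ_log_self (by norm_num) _
        have h5 := le_ones_of_carry (x := a i) (y := a j) (L := Nat.log 2 (a m) + 1)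
          (z := Nat.log 2 (a i) - Nat.log 2 (a j)) (by omega) (by omega) h4
          (by rw [← hij]; exact hbig)
        have h6 := h.ones_le r le_rfl i (by omega)
        omega

/-- all mantissas of integers `n < 2 ^ N` having a chain with at most `λ(n) + s` steps -/
def MM (s N : ℕ) : Finset ℚ :=
  (range (4 * s + 1) ×ˢ range (s + 1)).biUnion fun p =>
    (TT (2 ^ (4 * s) + 1) N p.1 p.2).biUnion id

theorem IsChain.mant_mem {n r N s : ℕ} {a : ℕ → ℕ} (h : IsChain n r a) (hn : n < 2 ^ N)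
    (hr : r ≤ Nat.log 2 n + s) : mant n ∈ MM s N := by
  have h1 := h.nd_le le_rfl
  have h0 := h.log_le le_rfl
  rw [h.2.1] at h0 h1
  have h2 : nd a r ≤ 4 * s := by omega
  have h3 : 2 ^ nd a r ≤ 2 ^ (4 * s) := Nat.pow_le_pow_right two_pos h2
  obtain ⟨S, hS, hmem⟩ := h.exists_mem_TT (B := 2 ^ (4 * s) + 1) hn (by omega) r le_rfl
  rw [h.2.1] at hS
  have h4 := hmem r le_rfl
  rw [h.2.1] at h4
  refine mem_biUnion.2 ⟨(nd a r, r - Nat.log 2 n), ?_, mem_biUnion.2 ⟨S, hS, h4⟩⟩
  simp only [mem_product, mem_range]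
  omega

theorem card_MM_le (s N : ℕ) (hN : 1 ≤ N) :
    (MM s N).card ≤ (4 * s + 1) * (s + 1) *
      ((2 * ((2 ^ (4 * s) + 1) * (4 * s + 1) ^ 2)) ^ (4 * s) * N ^ s * (4 * s + 1)) := by
  unfold MM
  refine (card_biUnion_le_card_mul _ _ ((2 * ((2 ^ (4 * s) + 1) * (4 * s + 1) ^ 2)) ^ (4 * s)
    * N ^ s * (4 * s + 1)) ?_).trans ?_
  · rintro ⟨f, t⟩ hp
    simp only [mem_product, mem_range] at hp
    refine (card_biUnion_le_card_mul _ _ (4 * s + 1) ?_).trans ?_
    · intro S hS
      exact (card_of_mem_TT f t S hS).trans (by omega)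
    · apply Nat.mul_le_mul_right
      refine (card_TT_le (F := 4 * s) (Nat.le_add_left 1 _) hN f t (by omega)).trans ?_
      apply Nat.mul_le_mul
      · apply Nat.pow_le_pow_right _ (by omega)
        positivity
      · exact Nat.pow_le_pow_right hN (by omega)
  · rw [card_product, card_range, card_range]

theorem four_mul_add_one_le (s : ℕ) : 4 * s + 1 ≤ 2 ^ (2 * s + 1) := by
  induction s with
  | zero => norm_num
  | succ s ih =>
    have h1 : 2 ^ (2 * (s + 1) + 1) = 4 * 2 ^ (2 * s + 1) := by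
      rw [show 2 * (s + 1) + 1 = (2 * s + 1) + 2 by ring, pow_add]; ring
    omega

theorem succ_le_two_pow (s : ℕ) : s + 1 ≤ 2 ^ s := Nat.lt_two_pow_self

theorem const_le (s : ℕ) :
    (4 * s + 1) * (s + 1) * ((2 * ((2 ^ (4 * s) + 1) * (4 * s + 1) ^ 2)) ^ (4 * s) *
      (4 * s + 1)) ≤ 2 ^ (32 * s ^ 2 + 21 * s + 2) := by
  have h1 := four_mul_add_one_le s
  have h2 := succ_le_two_pow s
  have h3 : 2 ^ (4 * s) + 1 ≤ 2 ^ (4 * s + 1) := by
    have : 1 ≤ 2 ^ (4 * s) := Nat.one_le_two_pow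
    rw [pow_succ]; omega
  have h4 : 2 * ((2 ^ (4 * s) + 1) * (4 * s + 1) ^ 2) ≤ 2 ^ (8 * s + 4) := by
    calc 2 * ((2 ^ (4 * s) + 1) * (4 * s + 1) ^ 2)
        ≤ 2 * (2 ^ (4 * s + 1) * (2 ^ (2 * s + 1)) ^ 2) :=
          Nat.mul_le_mul_left _ (Nat.mul_le_mul h3 (Nat.pow_le_pow_left h1 2))
      _ = 2 ^ (8 * s + 4) := by
          rw [← pow_mul, ← pow_add, ← pow_succ']
          congr 1
          ring
  calc (4 * s + 1) * (s + 1) * ((2 * ((2 ^ (4 * s) + 1) * (4 * s + 1) ^ 2)) ^ (4 * s) *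
        (4 * s + 1))
      ≤ 2 ^ (2 * s + 1) * 2 ^ s * ((2 ^ (8 * s + 4)) ^ (4 * s) * 2 ^ (2 * s + 1)) :=
        Nat.mul_le_mul (Nat.mul_le_mul h1 h2) (Nat.mul_le_mul (Nat.pow_le_pow_left h4 _) h1)
    _ = 2 ^ (32 * s ^ 2 + 21 * s + 2) := by
        rw [← pow_mul, ← pow_add, ← pow_add, ← pow_add]
        congr 1
        ring

open Classical in
/-- the number of integers `n < 2 ^ N` having an addition chain with at most `λ(n) + s` steps -/
theorem card_short_le (s N : ℕ) (hN : 1 ≤ N) :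
    ((range (2 ^ N)).filter (fun n => 1 ≤ n ∧ ∃ r a, r ≤ Nat.log 2 n + s ∧ IsChain n r a)).card
      ≤ 2 ^ (32 * s ^ 2 + 21 * s + 2) * N ^ (s + 1) := by
  have h1 : ((range (2 ^ N)).filter (fun n => 1 ≤ n ∧ ∃ r a, r ≤ Nat.log 2 n + s ∧
      IsChain n r a)).card ≤ (range N ×ˢ MM s N).card := by
    refine card_le_card_of_injOn (fun n => (Nat.log 2 n, mant n)) ?_ ?_
    · intro n hn
      rw [mem_coe, mem_filter, mem_range] at hn
      obtain ⟨hn, hn1, r, a, hr, ha⟩ := hn
      simp only [coe_product, Set.mem_prod, mem_coe, mem_range]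
      exact ⟨Nat.log_lt_of_lt_pow (by omega) hn, ha.mant_mem hn hr⟩
    · intro n _ n' _ h
      simp only [Prod.mk.injEq] at h
      obtain ⟨h1, h2⟩ := h
      unfold mant at h2
      rw [h1] at h2
      have h3 : (n : ℚ) = n' := by
        have h4 : (2 : ℚ) ^ Nat.log 2 n' ≠ 0 := by positivity
        field_simp at h2
        exact h2
      exact_mod_cast h3
  refine h1.trans ?_
  rw [card_product, card_range]
  calc N * (MM s N).card
      ≤ N * ((4 * s + 1) * (s + 1) *
      ((2 * ((2 ^ (4 * s) + 1) * (4 * s + 1) ^ 2)) ^ (4 * s) * N ^ s * (4 * s + 1))) :=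
        Nat.mul_le_mul_left _ (card_MM_le s N hN)
    _ = ((4 * s + 1) * (s + 1) * ((2 * ((2 ^ (4 * s) + 1) * (4 * s + 1) ^ 2)) ^ (4 * s) *
      (4 * s + 1))) * N ^ (s + 1) := by ring
    _ ≤ 2 ^ (32 * s ^ 2 + 21 * s + 2) * N ^ (s + 1) := Nat.mul_le_mul_right _ (const_le s)

/-! ### the number of integers with `k` ones -/

theorem sum_range_two_mul (f : ℕ → ℕ) (M : ℕ) :
    ∑ n ∈ range (2 * M), f n = ∑ m ∈ range M, (f (2 * m) + f (2 * m + 1)) := by
  induction M with
  | zero => simp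
  | succ M ih =>
    rw [show 2 * (M + 1) = 2 * M + 1 + 1 by ring, sum_range_succ, sum_range_succ, ih,
      sum_range_succ]
    ring

theorem card_ones (N : ℕ) : ∀ k, ((range (2 ^ N)).filter (fun n => ones n = k)).card
    = N.choose k := by
  induction N with
  | zero =>
    intro k
    rcases k with _ | k
    · simp [Finset.filter_singleton, ones_zero]
    · simp [Finset.filter_singleton, ones_zero]
  | succ N ih =>
    intro k
    rw [card_filter, pow_succ, mul_comm, sum_range_two_mul, sum_add_distrib]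
    simp only [ones_two_mul, ones_two_mul_add_one]
    rcases k with _ | k
    · simp only [Nat.add_eq_zero_iff, one_ne_zero, and_false, if_false, sum_const_zero, add_zero]
      rw [← card_filter, ih]
      simp
    · simp only [Nat.add_right_cancel_iff]
      rw [← card_filter, ← card_filter, ih, ih, Nat.choose_succ_succ]
      ring

end Pool.Agent.SchK
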