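import Mathlib

/-!
# MP_aa5fad_nt: addition chains, the Scholz inequality for integers with few binary ones
-/

set_option autoImplicit false

namespace Pool.Agent.SchK

/-- `1 = a 0 < a 1 < ... < a r = n` is an addition chain for `n` -/
def IsChain (n r : ℕ) (a : ℕ → ℕ) : Prop :=
  a 0 = 1 ∧ a r = n ∧ (∀ i j : ℕ, i < j → j ≤ r → a i < a j) ∧
    ∀ k : ℕ, 1 ≤ k → k ≤ r → ∃ i j : ℕ, i < k ∧ j < k ∧ a k = a i + a j

/-- `ℓ(n)`: the least number of steps of an addition chain for `n` -/
noncomputable def len (n : ℕ) : ℕ := sInf {r | ∃ a, IsChain n r a}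

/-- the number of ones in the binary expansion of `n` -/
def ones (n : ℕ) : ℕ := (Nat.digits 2 n).sum

end Pool.Agent.SchK
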