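import Pool.Agent.SchK.Count

/-!
# MP_aa5fad_nt: Scholz's inequality for almost all integers with `k` binary ones
-/

set_option autoImplicit false

namespace Pool.Agent.SchK

open Finset

theorem one_le_of_one_le_ones {n : ℕ} (h : 1 ≤ ones n) : 1 ≤ n := by
  rcases Nat.eq_zero_or_pos n with rfl | h1
  · rw [ones_zero] at h; omega
  · exact h1

/-- an exceptional integer has a short chain -/
theorem key {k n : ℕ} (hk : 1 ≤ k) (hn : ones n = k)
    (hex : ¬ (len n = Nat.log 2 n + k - 1 ∧ len (2 ^ n - 1) ≤ n - 1 + len n)) :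
    1 ≤ n ∧ ∃ a, IsChain n (len n) a ∧ len n < Nat.log 2 n + k - 1 := by
  have h1 : 1 ≤ n := one_le_of_one_le_ones (by omega)
  obtain ⟨h2, h3⟩ := exists_binary n h1
  rw [hn] at h2 h3
  have h4 : len n ≤ Nat.log 2 n + k - 1 := Nat.sInf_le h2
  have h5 : len (2 ^ n - 1) ≤ n - 1 + (Nat.log 2 n + k - 1) := Nat.sInf_le h3
  have h6 : ∃ a, IsChain n (len n) a :=
    Nat.sInf_mem (s := {r | ∃ a, IsChain n r a}) ⟨_, h2⟩
  obtain ⟨a, ha⟩ := h6
  refine ⟨h1, a, ha, ?_⟩
  by_contra hc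
  have h7 : len n = Nat.log 2 n + k - 1 := by omega
  exact hex ⟨h7, by omega⟩

theorem main (k N : ℕ) (hk : 1 ≤ k) (hN : 1 ≤ N) :
    ((range (2 ^ N)).filter fun n => ones n = k).card = N.choose k ∧
    ((range (2 ^ N)).filter fun n => ones n = k ∧
      ¬ (len n = Nat.log 2 n + k - 1 ∧ len (2 ^ n - 1) ≤ n - 1 + len n)).card
        ≤ 2 ^ (32 * k ^ 2) * N ^ (k - 1) := by
  classical
  refine ⟨card_ones N k, ?_⟩
  rcases Nat.lt_or_ge k 2 with hk2 | hk2
  · -- one binary one: no exception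
    obtain rfl : k = 1 := by omega
    have h0 : ((range (2 ^ N)).filter fun n => ones n = 1 ∧
      ¬ (len n = Nat.log 2 n + 1 - 1 ∧ len (2 ^ n - 1) ≤ n - 1 + len n)) = ∅ := by
      rw [filter_eq_empty_iff]
      rintro n - ⟨h1, h2⟩
      obtain ⟨-, a, ha, hlt⟩ := key le_rfl h1 h2
      have h3 := ha.log_le le_rfl
      rw [ha.2.1] at h3
      omega
    rw [h0, card_empty]
    exact Nat.zero_le _
  · obtain ⟨s, rfl⟩ : ∃ s, k = s + 2 := ⟨k - 2, by omega⟩
    refine (card_le_card (t := (range (2 ^ N)).filter (fun n => 1 ≤ n ∧ ∃ r a,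
      r ≤ Nat.log 2 n + s ∧ IsChain n r a)) ?_).trans ((card_short_le s N hN).trans ?_)
    · intro n hn
      rw [mem_filter] at hn ⊢
      obtain ⟨h1, a, ha, hlt⟩ := key hk hn.2.1 hn.2.2
      exact ⟨hn.1, h1, len n, a, by omega, ha⟩
    · have h1 : s + 2 - 1 = s + 1 := by omega
      rw [h1]
      apply Nat.mul_le_mul_right
      apply Nat.pow_le_pow_right two_pos
      nlinarith

end Pool.Agent.SchK
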